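import Mathlib

/-!
Abstract numeration systems: the radix order, the value function and sets of representations.
-/

namespace Pool.Agent.V11232.AN

/-- The radix (genealogical) order: shorter words come first, words of equal length are compared
lexicographically. -/
def RLt {A : Type} [LinearOrder A] (u v : List A) : Prop :=
  u.length < v.length ∨ (u.length = v.length ∧ u < v)

/-- The number of words of `L` that are smaller than `w` in the radix order. -/
noncomputable def val {A : Type} [LinearOrder A] (L : Language A) (w : List A) : ℕ :=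
  {v | v ∈ L ∧ RLt v w}.ncard

/-- The set of representations of the numbers in `X`: the words of `L` whose value is in `X`. -/
def rep {A : Type} [LinearOrder A] (L : Language A) (X : Set ℕ) : Language A :=
  {w | w ∈ L ∧ val L w ∈ X}

section

variable {A : Type} [LinearOrder A]

theorem rlt_irrefl (u : List A) : ¬ RLt u u := by
  rintro (h | ⟨-, h⟩)
  · exact lt_irrefl _ h
  · exact lt_irrefl _ h

theorem rlt_trans {u v w : List A} (h1 : RLt u v) (h2 : RLt v w) : RLt u w := by
  rcases h1 with h1 | ⟨h1, h1'⟩ <;> rcases h2 with h2 | ⟨h2, h2'⟩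
  · exact Or.inl (h1.trans h2)
  · exact Or.inl (h2 ▸ h1)
  · exact Or.inl (h1 ▸ h2)
  · exact Or.inr ⟨h1.trans h2, h1'.trans h2'⟩

theorem rlt_total (u v : List A) : RLt u v ∨ u = v ∨ RLt v u := by
  rcases lt_trichotomy u.length v.length with h | h | h
  · exact Or.inl (Or.inl h)
  · rcases lt_trichotomy u v with h' | h' | h'
    · exact Or.inl (Or.inr ⟨h, h'⟩)
    · exact Or.inr (Or.inl h')
    · exact Or.inr (Or.inr (Or.inr ⟨h.symm, h'⟩))
  · exact Or.inr (Or.inr (Or.inl h))

/-- Words between two words with a common beginning have this beginning. -/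
theorem between_common (p : List A) {a b w : List A} (h1 : p ++ a < w) (h2 : w < p ++ b) :
    ∃ z, w = p ++ z := by
  induction p generalizing w with
  | nil => exact ⟨w, rfl⟩
  | cons y p ih =>
    cases w with
    | nil =>
      exfalso
      exact absurd h1 (List.not_lt_nil _)
    | cons x w =>
      rw [List.cons_append, List.cons_lt_cons_iff] at h1
      rw [List.cons_append, List.cons_lt_cons_iff] at h2
      rcases h1 with h1 | ⟨rfl, h1⟩
      · rcases h2 with h2 | ⟨h2, -⟩
        · exact absurd (h1.trans h2) (lt_irrefl _)
        · exact absurd h1 (by rw [h2]; exact lt_irrefl _)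
      · rcases h2 with h2 | ⟨-, h2⟩
        · exact absurd h2 (lt_irrefl _)
        · obtain ⟨z, hz⟩ := ih h1 h2
          exact ⟨z, by rw [hz]; rfl⟩

variable [Fintype A]

theorem finite_le (n : ℕ) : {w : List A | w.length ≤ n}.Finite := List.finite_length_le A n

theorem finite_eq (n : ℕ) : {w : List A | w.length = n}.Finite := List.finite_length_eq A n

theorem finite_below (L : Language A) (w : List A) : {v | v ∈ L ∧ RLt v w}.Finite := by
  refine (finite_le w.length).subset ?_
  rintro v ⟨-, h | ⟨h, -⟩⟩
  · exact h.le
  · exact h.le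

theorem val_lt {L : Language A} {u v : List A} (hu : u ∈ L) (h : RLt u v) : val L u < val L v := by
  refine Set.ncard_lt_ncard ?_ (finite_below L v)
  refine ⟨fun w hw => ⟨hw.1, rlt_trans hw.2 h⟩, fun hs => ?_⟩
  exact rlt_irrefl u (hs ⟨hu, h⟩).2

theorem val_inj {L : Language A} {u v : List A} (hu : u ∈ L) (hv : v ∈ L)
    (h : val L u = val L v) : u = v := by
  rcases rlt_total u v with h' | h' | h'
  · exact absurd h (val_lt hu h').ne
  · exact h'
  · exact absurd h (val_lt hv h').ne'

theorem ncard_len (c : ℕ) : {w : List A | w.length = c}.ncard = Fintype.card A ^ c := by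
  rw [← Nat.card_coe_set_eq]
  have : Nat.card {w : List A | w.length = c} = Nat.card (List.Vector A c) := rfl
  rw [this, Nat.card_eq_fintype_card, card_vector]

/-- The values of two words with a long common beginning are close. -/
theorem val_close {L : Language A} {p a b : List A} (hab : a.length = b.length) :
    val L (p ++ b) ≤ val L (p ++ a) + Fintype.card A ^ a.length := by
  have hsub : {v | v ∈ L ∧ RLt v (p ++ b)} ⊆
      {v | v ∈ L ∧ RLt v (p ++ a)} ∪ (fun z => p ++ z) '' {z : List A | z.length = a.length} := by
    rintro w ⟨hw, hlt⟩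
    rcases rlt_total w (p ++ a) with h' | h' | h'
    · exact Or.inl ⟨hw, h'⟩
    · exact Or.inr ⟨a, rfl, h'.symm⟩
    · right
      have hl : (p ++ a).length = (p ++ b).length := by simp [hab]
      have hle : w.length ≤ (p ++ b).length := by
        rcases hlt with h1 | ⟨h1, -⟩
        · exact h1.le
        · exact h1.le
      have hge : (p ++ a).length ≤ w.length := by
        rcases h' with h1 | ⟨h1, -⟩
        · exact h1.le
        · exact h1.le
      have heq : w.length = (p ++ b).length := le_antisymm hle (hl ▸ hge)
      have h1 : w < p ++ b := by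
        rcases hlt with h1 | ⟨-, h1⟩
        · exact absurd heq h1.ne
        · exact h1
      have h2 : p ++ a < w := by
        rcases h' with h2 | ⟨-, h2⟩
        · exact absurd (hl.trans heq.symm) h2.ne
        · exact h2
      obtain ⟨z, hz⟩ := between_common p h2 h1
      refine ⟨z, ?_, hz.symm⟩
      rw [hz, List.length_append, List.length_append] at heq
      show z.length = a.length
      omega
  have hfin : ((fun z => p ++ z) '' {z : List A | z.length = a.length}).Finite :=
    (finite_eq _).image _
  calc val L (p ++ b) ≤ ({v | v ∈ L ∧ RLt v (p ++ a)} ∪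
        (fun z => p ++ z) '' {z : List A | z.length = a.length}).ncard :=
        Set.ncard_le_ncard hsub ((finite_below L _).union hfin)
    _ ≤ {v | v ∈ L ∧ RLt v (p ++ a)}.ncard +
        ((fun z => p ++ z) '' {z : List A | z.length = a.length}).ncard := Set.ncard_union_le _ _
    _ ≤ val L (p ++ a) + {z : List A | z.length = a.length}.ncard := by
        exact Nat.add_le_add_left (Set.ncard_image_le (finite_eq _)) _
    _ = val L (p ++ a) + Fintype.card A ^ a.length := by rw [ncard_len]

/-- Every number below the number of words of length at most `n` is the value of such a word. -/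
theorem exists_val {L : Language A} {n k : ℕ}
    (hk : k < {w | w ∈ L ∧ w.length ≤ n}.ncard) : ∃ w, w ∈ L ∧ w.length ≤ n ∧ val L w = k := by
  classical
  have hfin : {w | w ∈ L ∧ w.length ≤ n}.Finite := (finite_le n).subset fun w hw => hw.2
  let S := hfin.toFinset
  have hcard : S.card = {w | w ∈ L ∧ w.length ≤ n}.ncard :=
    (Set.ncard_eq_toFinset_card _ hfin).symm
  have hmem : ∀ w, w ∈ S ↔ w ∈ L ∧ w.length ≤ n := by
    intro w
    simp [S]
  have hmaps : Set.MapsTo (val L) S (Finset.range S.card) := by
    intro w hw
    have hw' := (hmem w).mp hw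
    rw [Finset.mem_coe, Finset.mem_range, hcard]
    refine Set.ncard_lt_ncard ?_ hfin
    refine ⟨?_, ?_⟩
    · rintro v ⟨hv, hlt⟩
      refine ⟨hv, ?_⟩
      rcases hlt with h | ⟨h, -⟩
      · exact h.le.trans hw'.2
      · exact h.le.trans hw'.2
    · intro hs
      exact rlt_irrefl w (hs hw').2
  have hinj : Set.InjOn (val L) S := by
    intro u hu v hv h
    exact val_inj ((hmem u).mp hu).1 ((hmem v).mp hv).1 h
  have hsurj := Finset.surjOn_of_injOn_of_card_le (val L) hmaps hinj (by simp)
  obtain ⟨w, hw, hwk⟩ := hsurj (by
    rw [Finset.mem_coe, Finset.mem_range, hcard]; exact hk : k ∈ (Finset.range S.card : Set ℕ))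
  exact ⟨w, ((hmem w).mp hw).1, ((hmem w).mp hw).2, hwk⟩

end

end Pool.Agent.V11232.AN
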