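import Pool.Agent.V11232.AN.Basic

namespace Pool.Agent.V11232.AN

variable {A : Type} [LinearOrder A] [Fintype A]

theorem evalFrom_pow {σ : Type} (M : DFA A σ) {q : σ} {b : List A} (h : M.evalFrom q b = q)
    (i : ℕ) : M.evalFrom q (List.replicate i b).flatten = q := by
  induction i with
  | zero => rfl
  | succ i ih =>
    rw [List.replicate_succ, List.flatten_cons, DFA.evalFrom_of_append, h, ih]

/-- If the gaps of `X` tend to infinity, then a word of the set of representations is determined by
its length and a short beginning. -/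
theorem determined {L : Language A} {X : Set ℕ}
    (hgap : ∀ G : ℕ, ∃ N, ∀ x ∈ X, ∀ y ∈ X, N ≤ x → x < y → x + G < y)
    {σ : Type} [Fintype σ] (M : DFA A σ) (hM : M.accepts = rep L X)
    {w z₁ z₂ : List A} (hw : Fintype.card σ ≤ w.length) (hz : z₁.length = z₂.length)
    (h1 : w ++ z₁ ∈ rep L X) (h2 : w ++ z₂ ∈ rep L X) : z₁ = z₂ := by
  obtain ⟨q, a, b, c, rfl, -, hb, ha, hq, hc⟩ := M.evalFrom_split hw rfl
  have key : ∀ (i : ℕ) (z : List A), a ++ b ++ c ++ z ∈ rep L X →
      a ++ (List.replicate i b).flatten ++ c ++ z ∈ rep L X := by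
    intro i z h
    rw [← hM, DFA.mem_accepts] at h ⊢
    have e1 : M.eval (a ++ b ++ c ++ z) = M.evalFrom (M.evalFrom q c) z := by
      rw [DFA.eval, DFA.evalFrom_of_append, DFA.evalFrom_of_append, DFA.evalFrom_of_append, ha, hq]
    have e2 : M.eval (a ++ (List.replicate i b).flatten ++ c ++ z) =
        M.evalFrom (M.evalFrom q c) z := by
      rw [DFA.eval, DFA.evalFrom_of_append, DFA.evalFrom_of_append, DFA.evalFrom_of_append, ha,
        evalFrom_pow M hq]
    rw [e2, ← e1]
    exact h
  have hbl : 0 < b.length := List.length_pos_of_ne_nil hb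
  have hlen : ∀ (i : ℕ) (z : List A), (a ++ (List.replicate i b).flatten ++ c ++ z).length =
      a.length + i * b.length + c.length + z.length := by
    intro i z
    simp only [List.length_append, List.length_flatten, List.map_replicate, List.sum_replicate,
      smul_eq_mul]
  have hlarge : ∀ (i : ℕ) (z : List A), a ++ b ++ c ++ z ∈ rep L X →
      i ≤ val L (a ++ (List.replicate i b).flatten ++ c ++ z) := by
    intro i z h
    induction i with
    | zero => exact Nat.zero_le _
    | succ i ih =>
      have : val L (a ++ (List.replicate i b).flatten ++ c ++ z) <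
          val L (a ++ (List.replicate (i + 1) b).flatten ++ c ++ z) := by
        refine val_lt (key i z h).1 (Or.inl ?_)
        rw [hlen, hlen]
        have : i * b.length < (i + 1) * b.length := by
          rw [Nat.add_mul]
          omega
        omega
      omega
  by_contra hne
  have aux : ∀ z z' : List A, z.length = z'.length → a ++ b ++ c ++ z ∈ rep L X →
      a ++ b ++ c ++ z' ∈ rep L X →
      ∀ N, (∀ x ∈ X, ∀ y ∈ X, N ≤ x → x < y → x + Fintype.card A ^ z.length < y) →
      RLt (a ++ (List.replicate N b).flatten ++ c ++ z)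
        (a ++ (List.replicate N b).flatten ++ c ++ z') → False := by
    intro z z' hzz h h' N hN hlt
    have h3 := val_lt (key N z h).1 hlt
    have h4 := hN _ (key N z h).2 _ (key N z' h').2 (hlarge N z h) h3
    have h5 := val_close (L := L) (p := a ++ (List.replicate N b).flatten ++ c) hzz
    omega
  obtain ⟨N, hN⟩ := hgap (Fintype.card A ^ z₁.length)
  rcases rlt_total (a ++ (List.replicate N b).flatten ++ c ++ z₁)
    (a ++ (List.replicate N b).flatten ++ c ++ z₂) with h | h | h
  · exact aux z₁ z₂ hz h1 h2 N hN h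
  · exact hne (List.append_cancel_left h)
  · exact aux z₂ z₁ hz.symm h2 h1 N (by rw [← hz]; exact hN) h

/-- If the gaps of `X` tend to infinity and the set of representations is regular, then it has
boundedly many words of each length. -/
theorem slender {L : Language A} {X : Set ℕ}
    (hgap : ∀ G : ℕ, ∃ N, ∀ x ∈ X, ∀ y ∈ X, N ≤ x → x < y → x + G < y)
    (hreg : (rep L X).IsRegular) :
    ∃ B, ∀ n, {w | w ∈ rep L X ∧ w.length = n}.ncard ≤ B := by
  obtain ⟨σ, _, M, hM⟩ := hreg
  refine ⟨{v : List A | v.length ≤ Fintype.card σ}.ncard, fun n => ?_⟩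
  refine Set.ncard_le_ncard_of_injOn (fun w => w.take (Fintype.card σ)) ?_ ?_ (finite_le _)
  · intro w _
    exact (List.length_take_le _ _)
  · rintro w ⟨hw, hwn⟩ v ⟨hv, hvn⟩ h
    have h' : w.take (Fintype.card σ) = v.take (Fintype.card σ) := h
    rcases le_total n (Fintype.card σ) with hn | hn
    · rw [List.take_of_length_le (by omega), List.take_of_length_le (by omega)] at h'
      exact h'
    · have hd : w.drop (Fintype.card σ) = v.drop (Fintype.card σ) := by
        refine determined hgap M hM (w := w.take (Fintype.card σ)) ?_ ?_ ?_ ?_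
        · rw [List.length_take]; omega
        · rw [List.length_drop, List.length_drop, hwn, hvn]
        · rw [List.take_append_drop]; exact hw
        · rw [h', List.take_append_drop]; exact hv
      rw [← List.take_append_drop (Fintype.card σ) w, h', hd, List.take_append_drop]

/-- The number of words of length at most `n` for a sequence whose gaps tend to infinity. -/
theorem bound {L : Language A} (f : ℕ → ℕ) (hf : ∀ G : ℕ, ∃ M, ∀ m, M ≤ m → f m + G < f (m + 1))
    (hreg : (rep L (Set.range f)).IsRegular) :
    ∃ B M, ∀ n, {w | w ∈ L ∧ w.length ≤ n}.ncard ≤ f (M + B * (n + 1)) := by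
  have hgap : ∀ G : ℕ, ∃ N, ∀ x ∈ Set.range f, ∀ y ∈ Set.range f, N ≤ x → x < y → x + G < y := by
    intro G
    obtain ⟨M, hM⟩ := hf G
    have hmono : StrictMono fun a => f (M + a) := by
      refine strictMono_nat_of_lt_succ fun a => ?_
      have := hM (M + a) (by omega)
      show f (M + a) < f (M + (a + 1))
      rw [← add_assoc]
      omega
    refine ⟨(∑ i ∈ Finset.range M, f i) + 1, ?_⟩
    rintro _ ⟨i, rfl⟩ _ ⟨j, rfl⟩ hi hij
    have hbig : ∀ k, (∑ i ∈ Finset.range M, f i) + 1 ≤ f k → M ≤ k := by
      intro k hk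
      by_contra hlt
      have : f k ≤ ∑ i ∈ Finset.range M, f i :=
        Finset.single_le_sum (f := f) (fun _ _ => Nat.zero_le _)
          (Finset.mem_range.mpr (by omega))
      omega
    have h1 := hbig i hi
    have h2 := hbig j (by omega)
    obtain ⟨a, rfl⟩ := Nat.exists_eq_add_of_le h1
    obtain ⟨b, rfl⟩ := Nat.exists_eq_add_of_le h2
    have hab : a < b := hmono.lt_iff_lt.mp hij
    have h3 := hM (M + a) (by omega)
    have h4 : f (M + (a + 1)) ≤ f (M + b) := hmono.monotone hab
    rw [← add_assoc] at h4
    omega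
  obtain ⟨B, hB⟩ := slender hgap hreg
  obtain ⟨M, hM⟩ := hf 0
  have hmono : StrictMono fun a => f (M + a) := by
    refine strictMono_nat_of_lt_succ fun a => ?_
    have := hM (M + a) (by omega)
    show f (M + a) < f (M + (a + 1))
    rw [← add_assoc]
    omega
  refine ⟨B, M, fun n => ?_⟩
  by_contra hlt
  push Not at hlt
  have hcount : {w | w ∈ rep L (Set.range f) ∧ w.length ≤ n}.ncard ≤ B * (n + 1) := by
    clear hlt
    induction n with
    | zero =>
      have : {w | w ∈ rep L (Set.range f) ∧ w.length ≤ 0} =
          {w | w ∈ rep L (Set.range f) ∧ w.length = 0} := by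
        ext w; simp
      rw [this]
      simpa using hB 0
    | succ n ih =>
      have : {w | w ∈ rep L (Set.range f) ∧ w.length ≤ n + 1} =
          {w | w ∈ rep L (Set.range f) ∧ w.length ≤ n} ∪
          {w | w ∈ rep L (Set.range f) ∧ w.length = n + 1} := by
        ext w
        constructor
        · rintro ⟨h1, h2⟩
          rcases Nat.lt_or_ge w.length (n + 1) with h | h
          · exact Or.inl ⟨h1, by omega⟩
          · exact Or.inr ⟨h1, by omega⟩
        · rintro (⟨h1, h2⟩ | ⟨h1, h2⟩)
          · exact ⟨h1, by omega⟩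
          · exact ⟨h1, by omega⟩
      rw [this]
      have h1 := Set.ncard_union_le {w | w ∈ rep L (Set.range f) ∧ w.length ≤ n}
          {w | w ∈ rep L (Set.range f) ∧ w.length = n + 1}
      have h2 := hB (n + 1)
      have h3 : B * (n + 1 + 1) = B * (n + 1) + B := by ring
      omega
  have hfin : {w | w ∈ rep L (Set.range f) ∧ w.length ≤ n}.Finite :=
    (finite_le n).subset fun w hw => hw.2
  have hex : ∀ a, a ≤ B * (n + 1) → ∃ w, w ∈ L ∧ w.length ≤ n ∧ val L w = f (M + a) := by
    intro a ha
    refine exists_val ?_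
    exact lt_of_le_of_lt (hmono.monotone ha) hlt
  choose! g hg using hex
  have hle : (Set.Iic (B * (n + 1))).ncard ≤
      {w | w ∈ rep L (Set.range f) ∧ w.length ≤ n}.ncard := by
    refine Set.ncard_le_ncard_of_injOn g ?_ ?_ hfin
    · intro a ha
      obtain ⟨h1, h2, h3⟩ := hg a ha
      exact ⟨⟨h1, h3 ▸ ⟨M + a, rfl⟩⟩, h2⟩
    · intro a ha b hb hab
      obtain ⟨-, -, h3⟩ := hg a ha
      obtain ⟨-, -, h4⟩ := hg b hb
      rw [hab] at h3
      exact hmono.injective (h3.symm.trans h4)
  have hcard : (Set.Iic (B * (n + 1))).ncard = B * (n + 1) + 1 := by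
    rw [Set.ncard_eq_toFinset_card']
    simp
  omega

end Pool.Agent.V11232.AN
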